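import Mathlib

namespace Pool.Agent.Results.MP_7aef23_nt.LinearGrowth

open Filter Finset

/-! ## Definitions of the problem -/

/-- `x` is a sum of exactly `k` elements of `A ∪ (-A)`, repetitions allowed
(the empty sum is `0`). -/
def IsSum (A : Set ℕ) (k : ℕ) (x : ℤ) : Prop :=
  ∃ l : List ℤ, l.length = k ∧ (∀ z ∈ l, ∃ a ∈ A, z = (a : ℤ) ∨ z = -(a : ℤ)) ∧ l.sum = x

/-- The word length `ℓ_A(x)`: the least `k` such that `x` is a sum of `k` elements of
`A ∪ (-A)`, and `⊤` if there is none. -/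
noncomputable def wordLength (A : Set ℕ) (x : ℤ) : ℕ∞ :=
  ⨅ k : {k : ℕ // IsSum A k x}, ((k : ℕ) : ℕ∞)

/-- The family `𝒜(r, W)`: sets `A` of positive integers that generate `ℤ` and for which the
set of integers of word length exactly `r` is `W ∪ (-W)`. -/
def Fam (r : ℕ) (W : Finset ℕ) : Set (Set ℕ) :=
  {A | (∀ a ∈ A, 0 < a) ∧ (∀ x : ℤ, wordLength A x ≠ ⊤) ∧
    {x : ℤ | wordLength A x = (r : ℕ∞)} = {x : ℤ | ∃ w ∈ W, x = (w : ℤ) ∨ x = -(w : ℤ)}}

/-- The counting function `A(t)`, the number of elements of `A` that are at most `t`. -/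
noncomputable def count (A : Set ℕ) (t : ℝ) : ℕ := {a : ℕ | a ∈ A ∧ (a : ℝ) ≤ t}.ncard

/-- `A(t) ≫ t^θ`. -/
def GrowsAtLeast (A : Set ℕ) (θ : ℝ) : Prop :=
  ∃ c : ℝ, 0 < c ∧ ∀ᶠ t : ℝ in atTop, c * t ^ θ ≤ (count A t : ℝ)

/-- `θ(r, W)`. -/
noncomputable def theta (r : ℕ) (W : Finset ℕ) : ℝ :=
  sSup {θ : ℝ | 0 < θ ∧ ∃ A ∈ Fam r W, GrowsAtLeast A θ}

/-! ## Generic integers in given residue classes -/

lemma generic (m : ℤ) (hm : 0 < m) : ∀ (k : ℕ) (x : Fin k → ℤ) (B L : ℤ), 0 ≤ B → 0 ≤ L →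
    ∃ s : Fin k → ℤ, (∀ i, m ∣ s i - x i) ∧
      ∀ d : Fin k → ℤ, (∀ i, |d i| ≤ L) → |∑ i, d i * s i| ≤ B → ∀ i, d i = 0 := by
  intro k
  induction k with
  | zero =>
    intro x B L _ _
    exact ⟨fun i => i.elim0, fun i => i.elim0, fun d _ _ i => i.elim0⟩
  | succ k ih =>
    intro x B L hB hL
    set s0 : ℤ := x 0 + m * (|x 0| + B + 1) with hs0
    have hs0B : B < s0 := by
      have h1 : |x 0| + B + 1 ≤ m * (|x 0| + B + 1) := by
        have : 0 ≤ |x 0| + B + 1 := by positivity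
        nlinarith
      have h2 := neg_abs_le (x 0)
      rw [hs0]; linarith
    obtain ⟨s, hs, hgen⟩ := ih (fun i => x i.succ) (B + L * |s0|) L (by positivity) hL
    refine ⟨Fin.cons s0 s, ?_, ?_⟩
    · intro i
      refine Fin.cases ?_ (fun j => ?_) i
      · rw [Fin.cons_zero, hs0]
        exact ⟨|x 0| + B + 1, by ring⟩
      · rw [Fin.cons_succ]
        exact hs j
    · intro d hd hsum
      rw [Fin.sum_univ_succ] at hsum
      simp only [Fin.cons_zero, Fin.cons_succ] at hsum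
      have h0 : |d 0 * s0| ≤ L * |s0| := by
        rw [abs_mul]
        exact mul_le_mul_of_nonneg_right (hd 0) (abs_nonneg _)
      have h1 : |∑ i : Fin k, d i.succ * s i| ≤ B + L * |s0| := by
        have : ∑ i : Fin k, d i.succ * s i
            = (d 0 * s0 + ∑ i : Fin k, d i.succ * s i) - d 0 * s0 := by ring
        rw [this]
        exact le_trans (abs_sub _ _) (by linarith)
      have h2 := hgen (fun i => d i.succ) (fun i => hd _) h1
      have h3 : ∑ i : Fin k, d i.succ * s i = 0 :=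
        Finset.sum_eq_zero fun i _ => by rw [h2 i, zero_mul]
      rw [h3, add_zero, abs_mul] at hsum
      have h4 : d 0 = 0 := by
        by_contra hne
        have h5 : 1 ≤ |d 0| := Int.one_le_abs hne
        have h6 : B < |s0| := lt_of_lt_of_le hs0B (le_abs_self _)
        nlinarith [abs_nonneg s0]
      intro i
      refine Fin.cases h4 (fun j => h2 j) i

/-! ## The extension step -/

/-- the data: a periodic symmetric set `R ∋ 0` and a finite set `V` to be avoided -/
structure Data (k : ℕ) (m : ℤ) (R : Set ℤ) (V : Set ℤ) : Prop where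
  hm : 0 < m
  zero : (0 : ℤ) ∈ R
  neg : ∀ z ∈ R, -z ∈ R
  per : ∀ z z' : ℤ, z ∈ R → m ∣ z' - z → z' ∈ R
  cover : ∀ n : ℤ, ∃ x : Fin (k + 1) → ℤ, (∀ i, x i ∈ R) ∧ m ∣ n - ∑ i, x i
  negV : ∀ v ∈ V, -v ∈ V
  finV : V.Finite
  avoid : ∀ v ∈ V, ∀ f : Fin k → ℤ, (∀ i, f i ∈ R) → ¬ m ∣ v - ∑ i, f i

/-- the invariant of the finite sets -/
structure Good (k : ℕ) (R V : Set ℤ) (Z : Finset ℤ) : Prop where
  sub : ∀ z ∈ Z, z ∈ R
  neg : ∀ z ∈ Z, -z ∈ Z
  free : ∀ f : Fin (k + 1) → ℤ, (∀ i, f i ∈ Z) → ∑ i, f i ∉ V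

lemma extend {k : ℕ} {m : ℤ} {R V : Set ℤ} (D : Data k m R V) {Z : Finset ℤ}
    (hZ : Good k R V Z) {n : ℤ} (hn : n ∉ V) :
    ∃ Z' : Finset ℤ, Good k R V Z' ∧ Z ⊆ Z' ∧
      ∃ f : Fin (k + 1) → ℤ, (∀ i, f i ∈ Z') ∧ ∑ i, f i = n := by
  classical
  obtain ⟨x, hx, hxn⟩ := D.cover n
  set BV : ℤ := ∑ v ∈ D.finV.toFinset, |v| with hBV
  set BZ : ℤ := ∑ z ∈ Z, |z| with hBZ
  have hBV0 : 0 ≤ BV := Finset.sum_nonneg fun _ _ => abs_nonneg _
  have hBZ0 : 0 ≤ BZ := Finset.sum_nonneg fun _ _ => abs_nonneg _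
  obtain ⟨s, hs, hgen⟩ := generic m D.hm k (fun i => x i.castSucc)
    (BV + (k + 1) * BZ + (k + 1) * |n|) (2 * (k + 1)) (by positivity) (by positivity)
  set s' : Fin (k + 1) → ℤ := Fin.snoc (α := fun _ => ℤ) s (n - ∑ i, s i) with hs'
  have hs'c : ∀ i : Fin k, s' i.castSucc = s i := fun i => by rw [hs', Fin.snoc_castSucc]
  have hs'l : s' (Fin.last k) = n - ∑ i, s i := by rw [hs', Fin.snoc_last]
  have hsum' : ∑ i, s' i = n := by
    rw [Fin.sum_univ_castSucc, hs'l]
    simp only [hs'c]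
    ring
  have hs'R : ∀ i, s' i ∈ R := by
    intro i
    refine Fin.lastCases ?_ (fun j => ?_) i
    · rw [hs'l]
      refine D.per _ _ (hx (Fin.last k)) ?_
      rw [Fin.sum_univ_castSucc] at hxn
      have h1 : m ∣ ∑ i, (s i - x i.castSucc) := Finset.dvd_sum fun i _ => hs i
      rw [Finset.sum_sub_distrib] at h1
      have h2 := dvd_sub hxn h1
      have e : n - ∑ i, s i - x (Fin.last k) = (n - (∑ i : Fin k, x i.castSucc + x (Fin.last k)))
          - (∑ i, s i - ∑ i : Fin k, x i.castSucc) := by ring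
      rw [e]
      exact h2
    · rw [hs'c]
      exact D.per _ _ (hx _) (hs j)
  set Z' : Finset ℤ := Z ∪ (Finset.univ.image s' ∪ Finset.univ.image (fun i => - s' i)) with hZ'
  have hmem : ∀ z ∈ Z', z ∈ Z ∨ (∃ i, z = s' i) ∨ (∃ i, z = - s' i) := by
    intro z hz
    rw [hZ', Finset.mem_union, Finset.mem_union, Finset.mem_image, Finset.mem_image] at hz
    rcases hz with hz | ⟨i, _, hi⟩ | ⟨i, _, hi⟩
    · exact Or.inl hz
    · exact Or.inr (Or.inl ⟨i, hi.symm⟩)
    · exact Or.inr (Or.inr ⟨i, hi.symm⟩)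
  refine ⟨Z', ⟨?_, ?_, ?_⟩, Finset.subset_union_left, s', ?_, hsum'⟩
  · intro z hz
    rcases hmem z hz with hz | ⟨i, rfl⟩ | ⟨i, rfl⟩
    · exact hZ.sub z hz
    · exact hs'R i
    · exact D.neg _ (hs'R i)
  · intro z hz
    rw [hZ', Finset.mem_union, Finset.mem_union, Finset.mem_image, Finset.mem_image]
    rcases hmem z hz with hz | ⟨i, rfl⟩ | ⟨i, rfl⟩
    · exact Or.inl (hZ.neg z hz)
    · exact Or.inr (Or.inr ⟨i, Finset.mem_univ _, rfl⟩)
    · exact Or.inr (Or.inl ⟨i, Finset.mem_univ _, by ring⟩)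
  · intro f hf hfV
    -- decompose each term
    have hdec : ∀ j : Fin (k + 1), ∃ (σ : ℤ) (c : Fin (k + 1) → ℤ),
        f j = σ + ∑ i, c i * s' i ∧
        ((σ ∈ Z ∧ (∀ i, c i = 0)) ∨ (σ = 0 ∧ ∑ i, |c i| = 1)) := by
      intro j
      rcases hmem (f j) (hf j) with hz | ⟨i, hi⟩ | ⟨i, hi⟩
      · exact ⟨f j, fun _ => 0, by simp, Or.inl ⟨hz, fun _ => rfl⟩⟩
      · refine ⟨0, Pi.single i 1, ?_, Or.inr ⟨rfl, ?_⟩⟩
        · rw [hi, zero_add, Finset.sum_eq_single i]
          · simp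
          · intro b _ hb; simp [hb]
          · intro h; exact absurd (Finset.mem_univ _) h
        · rw [Finset.sum_eq_single i]
          · simp
          · intro b _ hb; simp [hb]
          · intro h; exact absurd (Finset.mem_univ _) h
      · refine ⟨0, Pi.single i (-1), ?_, Or.inr ⟨rfl, ?_⟩⟩
        · rw [hi, zero_add, Finset.sum_eq_single i]
          · simp
          · intro b _ hb; simp [hb]
          · intro h; exact absurd (Finset.mem_univ _) h
        · rw [Finset.sum_eq_single i]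
          · simp
          · intro b _ hb; simp [hb]
          · intro h; exact absurd (Finset.mem_univ _) h
    choose σ c hfj hcase using hdec
    have hσ : ∀ j, |σ j| ≤ BZ := by
      intro j
      rcases hcase j with ⟨h1, _⟩ | ⟨h1, _⟩
      · exact Finset.single_le_sum (f := fun z : ℤ => |z|) (fun _ _ => abs_nonneg _) h1
      · rw [h1, abs_zero]; exact hBZ0
    have hc1 : ∀ j, ∑ i, |c j i| ≤ 1 := by
      intro j
      rcases hcase j with ⟨_, h2⟩ | ⟨_, h2⟩
      · simp [h2]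
      · rw [h2]
    have hcij : ∀ j i, |c j i| ≤ 1 := fun j i =>
      le_trans (Finset.single_le_sum (f := fun i => |c j i|) (fun _ _ => abs_nonneg _)
        (Finset.mem_univ i)) (hc1 j)
    set C : Fin (k + 1) → ℤ := fun i => ∑ j, c j i with hC
    have hCi : ∀ i, |C i| ≤ k + 1 := by
      intro i
      calc |C i| ≤ ∑ j, |c j i| := Finset.abs_sum_le_sum_abs _ _
        _ ≤ ∑ _j : Fin (k + 1), (1 : ℤ) := Finset.sum_le_sum fun j _ => hcij j i
        _ = k + 1 := by simp
    have htot : ∑ j, f j = ∑ j, σ j + ∑ i, C i * s' i := by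
      have : ∑ j, f j = ∑ j, (σ j + ∑ i, c j i * s' i) := Finset.sum_congr rfl fun j _ => hfj j
      rw [this, Finset.sum_add_distrib]
      congr 1
      rw [Finset.sum_comm]
      refine Finset.sum_congr rfl fun i _ => ?_
      rw [hC, Finset.sum_mul]
    have hsplit : ∑ i, C i * s' i
        = ∑ i : Fin k, (C i.castSucc - C (Fin.last k)) * s i + C (Fin.last k) * n := by
      rw [Fin.sum_univ_castSucc, hs'l]
      simp only [hs'c, sub_mul, Finset.sum_sub_distrib, ← Finset.mul_sum]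
      ring
    have hbound : |∑ i : Fin k, (C i.castSucc - C (Fin.last k)) * s i| ≤
        BV + (k + 1) * BZ + (k + 1) * |n| := by
      have e1 : ∑ i : Fin k, (C i.castSucc - C (Fin.last k)) * s i
          = ∑ j, f j - ∑ j, σ j - C (Fin.last k) * n := by
        rw [htot, hsplit]; ring
      have e2 : |∑ j, f j| ≤ BV :=
        Finset.single_le_sum (f := fun v : ℤ => |v|) (fun _ _ => abs_nonneg _)
          (D.finV.mem_toFinset.2 hfV)
      have e3 : |∑ j, σ j| ≤ (k + 1) * BZ := by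
        calc |∑ j, σ j| ≤ ∑ j, |σ j| := Finset.abs_sum_le_sum_abs _ _
          _ ≤ ∑ _j : Fin (k + 1), BZ := Finset.sum_le_sum fun j _ => hσ j
          _ = (k + 1) * BZ := by simp
      have e4 : |C (Fin.last k) * n| ≤ (k + 1) * |n| := by
        rw [abs_mul]
        exact mul_le_mul_of_nonneg_right (hCi _) (abs_nonneg _)
      rw [e1]
      have e5 := abs_sub (∑ j, f j - ∑ j, σ j) (C (Fin.last k) * n)
      have e6 := abs_sub (∑ j, f j) (∑ j, σ j)
      linarith
    have hd := hgen (fun i => C i.castSucc - C (Fin.last k)) (fun i => by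
      have := abs_sub (C i.castSucc) (C (Fin.last k))
      have h1 := hCi i.castSucc
      have h2 := hCi (Fin.last k)
      linarith) hbound
    set γ := C (Fin.last k) with hγ
    have hCγ : ∀ i, C i = γ := by
      intro i
      refine Fin.lastCases rfl (fun j => ?_) i
      have := hd j
      linarith
    have htot2 : ∑ j, f j = ∑ j, σ j + γ * n := by
      rw [htot]
      congr 1
      simp only [hCγ]
      rw [← Finset.mul_sum, hsum']
    have hcount : (k + 1) * |γ| ≤ ∑ j, ∑ i, |c j i| := by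
      calc (k + 1) * |γ| = ∑ i, |C i| := by simp [hCγ]
        _ ≤ ∑ i, ∑ j, |c j i| := Finset.sum_le_sum fun i _ => Finset.abs_sum_le_sum_abs _ _
        _ = ∑ j, ∑ i, |c j i| := Finset.sum_comm
    by_cases hall : ∀ j, σ j ∈ Z ∧ ∀ i, c j i = 0
    · -- all old
      refine hZ.free f (fun j => ?_) hfV
      have : f j = σ j := by
        rw [hfj j]
        have h0 : ∑ i, c j i * s' i = 0 :=
          Finset.sum_eq_zero fun i _ => by rw [(hall j).2 i, zero_mul]
        rw [h0, add_zero]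
      rw [this]
      exact (hall j).1
    · rw [not_forall] at hall
      obtain ⟨j1, hj1⟩ := hall
      have hσj1 : σ j1 = 0 := by
        rcases hcase j1 with h | h
        · exact absurd h hj1
        · exact h.1
      by_cases hγ0 : γ = 0
      · -- residues
        have hσs : ∑ j, σ j = ∑ i : Fin k, σ (j1.succAbove i) := by
          rw [Fin.sum_univ_succAbove _ j1, hσj1, zero_add]
        rw [hγ0, zero_mul, add_zero, hσs] at htot2
        refine D.avoid _ hfV (fun i => σ (j1.succAbove i)) (fun i => ?_) ?_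
        · rcases hcase (j1.succAbove i) with h | h
          · exact hZ.sub _ h.1
          · rw [h.1]; exact D.zero
        · rw [htot2]; simp
      · have hγ1 : 1 ≤ |γ| := Int.one_le_abs hγ0
        have hle : ∑ j, ∑ i, |c j i| ≤ k + 1 := by
          calc ∑ j, ∑ i, |c j i| ≤ ∑ _j : Fin (k + 1), (1 : ℤ) :=
                Finset.sum_le_sum fun j _ => hc1 j
            _ = k + 1 := by simp
        -- all new
        have hnew : ∀ j, σ j = 0 := by
          by_contra hcon
          rw [not_forall] at hcon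
          obtain ⟨j0, hj0⟩ := hcon
          have hz0 : ∑ i, |c j0 i| = 0 := by
            rcases hcase j0 with h | h
            · exact Finset.sum_eq_zero fun i _ => by rw [h.2 i, abs_zero]
            · exact absurd h.1 hj0
          have : ∑ j, ∑ i, |c j i| ≤ k := by
            rw [Fin.sum_univ_succAbove _ j0, hz0, zero_add]
            calc ∑ i : Fin k, ∑ i', |c (j0.succAbove i) i'| ≤ ∑ _i : Fin k, (1 : ℤ) :=
                  Finset.sum_le_sum fun j _ => hc1 _
              _ = k := by simp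
          nlinarith
        have hγle : |γ| ≤ 1 := by
          by_contra hcon
          have : 2 ≤ |γ| := by omega
          nlinarith
        have hγ' : |γ| = 1 := le_antisymm hγle hγ1
        have hσ0 : ∑ j, σ j = 0 := Finset.sum_eq_zero fun j _ => hnew j
        rw [hσ0, zero_add] at htot2
        rcases (abs_eq (by norm_num : (0 : ℤ) ≤ 1)).1 hγ' with h | h
        · rw [h, one_mul] at htot2
          rw [htot2] at hfV
          exact hn hfV
        · rw [h] at htot2
          have := D.negV _ hfV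
          rw [htot2] at this
          apply hn
          simpa using this
  · intro i
    rw [hZ', Finset.mem_union, Finset.mem_union, Finset.mem_image, Finset.mem_image]
    exact Or.inr (Or.inl ⟨i, Finset.mem_univ _, rfl⟩)

/-! ## The infinite set -/

lemma chain {k : ℕ} {m : ℤ} {R V : Set ℤ} (D : Data k m R V) :
    ∃ Zs : Set ℤ, (∀ z ∈ Zs, z ∈ R) ∧ (∀ z ∈ Zs, -z ∈ Zs) ∧
      (∀ f : Fin (k + 1) → ℤ, (∀ i, f i ∈ Zs) → ∑ i, f i ∉ V) ∧
      ∀ n : ℤ, n ∉ V → ∃ f : Fin (k + 1) → ℤ, (∀ i, f i ∈ Zs) ∧ ∑ i, f i = n := by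
  classical
  have hstep : ∀ (n : ℤ) (Z : {Z : Finset ℤ // Good k R V Z}),
      ∃ Z' : {Z : Finset ℤ // Good k R V Z}, Z.1 ⊆ Z'.1 ∧
        (n ∉ V → ∃ f : Fin (k + 1) → ℤ, (∀ i, f i ∈ Z'.1) ∧ ∑ i, f i = n) := by
    intro n Z
    by_cases hn : n ∈ V
    · exact ⟨Z, Finset.Subset.refl _, fun h => absurd hn h⟩
    · obtain ⟨Z', h1, h2, h3⟩ := extend D Z.2 hn
      exact ⟨⟨Z', h1⟩, h2, fun _ => h3⟩
  choose step hsub hcov using hstep
  let e : ℕ ≃ ℤ := (Denumerable.eqv ℤ).symm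
  have hempty : Good k R V (∅ : Finset ℤ) :=
    ⟨fun z hz => absurd hz (Finset.notMem_empty z), fun z hz => absurd hz (Finset.notMem_empty z),
      fun f hf => absurd (hf 0) (Finset.notMem_empty _)⟩
  let seq : ℕ → {Z : Finset ℤ // Good k R V Z} :=
    fun i => Nat.rec ⟨∅, hempty⟩ (fun i Z => step (e i) Z) i
  have hseq : ∀ i, seq (i + 1) = step (e i) (seq i) := fun i => rfl
  have hmono : Monotone (fun i => (seq i).1) :=
    monotone_nat_of_le_succ fun i => by
      rw [hseq]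
      exact hsub _ _
  refine ⟨{z | ∃ i, z ∈ (seq i).1}, ?_, ?_, ?_, ?_⟩
  · rintro z ⟨i, hi⟩
    exact (seq i).2.sub z hi
  · rintro z ⟨i, hi⟩
    exact ⟨i, (seq i).2.neg z hi⟩
  · intro f hf
    choose g hg using hf
    refine (seq (Finset.univ.sup g)).2.free f fun i => ?_
    exact hmono (Finset.le_sup (f := g) (Finset.mem_univ i)) (hg i)
  · intro n hn
    obtain ⟨f, hf, hfn⟩ := hcov (e (e.symm n)) (seq (e.symm n)) (by simpa using hn)
    refine ⟨f, fun i => ⟨e.symm n + 1, ?_⟩, by simpa using hfn⟩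
    rw [hseq]
    exact hf i

/-! ## Lists and padding -/

lemma sum_filter_ne_zero (l : List ℤ) : (l.filter (fun z => z ≠ 0)).sum = l.sum := by
  induction l with
  | nil => rfl
  | cons a l ih =>
    by_cases ha : a = 0
    · subst ha
      simpa using ih
    · rw [List.filter_cons_of_pos (by simpa using ha), List.sum_cons, List.sum_cons, ih]

lemma pad : ∀ (l : List ℤ) (n : ℕ), l.length ≤ n →
    ∃ f : Fin n → ℤ, (∀ i, f i ∈ l ∨ f i = 0) ∧ ∑ i, f i = l.sum := by
  intro l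
  induction l with
  | nil =>
    intro n _
    exact ⟨fun _ => 0, fun _ => Or.inr rfl, by simp⟩
  | cons a l ih =>
    intro n hn
    obtain ⟨n', rfl⟩ : ∃ n', n = n' + 1 := ⟨n - 1, by simp at hn; omega⟩
    obtain ⟨f, hf, hs⟩ := ih n' (by simpa using hn)
    refine ⟨Fin.cons a f, fun i => ?_, ?_⟩
    · refine Fin.cases ?_ (fun j => ?_) i
      · left; simp
      · rw [Fin.cons_succ]
        rcases hf j with h | h
        · exact Or.inl (List.mem_cons_of_mem _ h)
        · exact Or.inr h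
    · rw [Fin.sum_univ_succ]
      simp only [Fin.cons_zero, Fin.cons_succ, List.sum_cons, hs]

/-! ## Word length -/

lemma wordLength_le {A : Set ℕ} {k : ℕ} {x : ℤ} (h : IsSum A k x) :
    wordLength A x ≤ k :=
  iInf_le (fun k : {k : ℕ // IsSum A k x} => ((k : ℕ) : ℕ∞)) ⟨k, h⟩

lemma le_wordLength {A : Set ℕ} {k : ℕ} {x : ℤ} (h : ∀ j < k, ¬ IsSum A j x) :
    (k : ℕ∞) ≤ wordLength A x := by
  refine le_iInf fun j => ?_
  by_contra hcon
  rw [not_le] at hcon
  exact h j (by exact_mod_cast hcon) j.2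

/-- the set `A` built from `Zs` and `m` -/
def setA (m : ℤ) (Zs : Set ℤ) : Set ℕ := {a | 0 < a ∧ ((a : ℤ) ∈ Zs ∨ m ∣ (a : ℤ))}

lemma mem_fam {k : ℕ} {m : ℤ} {R V : Set ℤ} (D : Data k m R V) {Zs : Set ℤ}
    (h1 : ∀ z ∈ Zs, z ∈ R) (h2 : ∀ z ∈ Zs, -z ∈ Zs)
    (h3 : ∀ f : Fin (k + 1) → ℤ, (∀ i, f i ∈ Zs) → ∑ i, f i ∉ V)
    (h4 : ∀ n : ℤ, n ∉ V → ∃ f : Fin (k + 1) → ℤ, (∀ i, f i ∈ Zs) ∧ ∑ i, f i = n) :
    (∀ x : ℤ, wordLength (setA m Zs) x ≠ ⊤) ∧
      {x : ℤ | wordLength (setA m Zs) x = ((k + 2 : ℕ) : ℕ∞)} = V := by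
  have hout : ∀ n : ℤ, n ∉ V → ∃ j, j ≤ k + 1 ∧ IsSum (setA m Zs) j n := by
    intro n hn
    obtain ⟨f, hf, hs⟩ := h4 n hn
    refine ⟨((List.ofFn f).filter (fun z => z ≠ 0)).length, ?_,
      (List.ofFn f).filter (fun z => z ≠ 0), rfl, ?_, ?_⟩
    · refine le_trans (List.length_filter_le _ _) ?_
      simp
    · intro z hz
      rw [List.mem_filter, List.mem_ofFn] at hz
      obtain ⟨⟨i, hi⟩, hz0⟩ := hz
      have hz0' : z ≠ 0 := by simpa using hz0
      have hzZ : z ∈ Zs := hi ▸ hf i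
      refine ⟨z.natAbs, ⟨Int.natAbs_pos.2 hz0', Or.inl ?_⟩, ?_⟩
      · rcases Int.natAbs_eq z with h | h
        · rw [← h]; exact hzZ
        · have : (z.natAbs : ℤ) = -z := by omega
          rw [this]; exact h2 z hzZ
      · rcases Int.natAbs_eq z with h | h
        · exact Or.inl h
        · exact Or.inr h
    · rw [sum_filter_ne_zero, List.sum_ofFn, hs]
  have hin : ∀ v ∈ V, ∀ j, j ≤ k + 1 → ¬ IsSum (setA m Zs) j v := by
    rintro v hv j hj ⟨l, hl, hlA, hls⟩
    obtain ⟨f, hf, hfs⟩ := pad l (k + 1) (by omega)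
    have hmR : ∀ z : ℤ, m ∣ z → z ∈ R := fun z hz => D.per 0 z D.zero (by simpa using hz)
    have hclass : ∀ i, f i ∈ Zs ∨ m ∣ f i := by
      intro i
      rcases hf i with h | h
      · obtain ⟨a, ⟨_, ha⟩, hza⟩ := hlA _ h
        rcases hza with hza | hza <;> rcases ha with ha | ha
        · left; rw [hza]; exact ha
        · right; rw [hza]; exact ha
        · left; rw [hza]; exact h2 _ ha
        · right; rw [hza]; exact (dvd_neg).2 ha
      · right; rw [h]; exact dvd_zero m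
    have hR : ∀ i, f i ∈ R := fun i => (hclass i).elim (h1 _) (hmR _)
    by_cases hall : ∀ i, f i ∈ Zs
    · exact h3 f hall (by rw [hfs, hls]; exact hv)
    · rw [not_forall] at hall
      obtain ⟨i0, hi0⟩ := hall
      have hd : m ∣ f i0 := (hclass i0).resolve_left hi0
      refine D.avoid v hv (fun i => f (i0.succAbove i)) (fun i => hR _) ?_
      rw [← hls, ← hfs, Fin.sum_univ_succAbove _ i0]
      simpa using hd
  have hV : ∀ v ∈ V, wordLength (setA m Zs) v = ((k + 2 : ℕ) : ℕ∞) := by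
    intro v hv
    -- find a multiple `m * q` with `v + m * q ∉ V` and `q > 0`
    have hex : ∃ q : ℕ, 0 < q ∧ v + m * q ∉ V := by
      by_contra hcon
      push Not at hcon
      have hinf : (Set.range (fun q : ℕ => v + m * ((q + 1 : ℕ) : ℤ))).Infinite := by
        apply Set.infinite_range_of_injective
        intro q q' h
        simp only at h
        have h5 : m * ((q + 1 : ℕ) : ℤ) = m * ((q' + 1 : ℕ) : ℤ) := by linarith
        have h6 := mul_left_cancel₀ D.hm.ne' h5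
        have h7 : q + 1 = q' + 1 := by exact_mod_cast h6
        omega
      apply hinf
      refine D.finV.subset ?_
      rintro _ ⟨q, rfl⟩
      exact hcon (q + 1) (by omega)
    obtain ⟨q, hq, hqV⟩ := hex
    obtain ⟨j, hj, l, hl, hlA, hls⟩ := hout _ hqV
    have hIs : IsSum (setA m Zs) (j + 1) v := by
      refine ⟨(-(m * q)) :: l, by simp [hl], ?_, by simp [hls]⟩
      intro z hz
      rw [List.mem_cons] at hz
      rcases hz with rfl | hz
      · have hpos : 0 < m * (q : ℤ) := mul_pos D.hm (by exact_mod_cast hq)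
        refine ⟨(m * q).toNat, ⟨by omega, Or.inr ?_⟩, Or.inr ?_⟩
        · rw [Int.toNat_of_nonneg hpos.le]; exact Dvd.intro _ rfl
        · rw [Int.toNat_of_nonneg hpos.le]
      · exact hlA z hz
    have hj' : j = k + 1 := by
      by_contra hne
      exact hin v hv (j + 1) (by omega) hIs
    apply le_antisymm
    · have := wordLength_le hIs
      rw [hj'] at this
      exact this
    · exact le_wordLength fun i hi => hin v hv i (by omega)
  constructor
  · intro x
    by_cases hx : x ∈ V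
    · rw [hV x hx]; exact ENat.natCast_ne_top _
    · obtain ⟨j, _, hjs⟩ := hout x hx
      exact ne_top_of_le_ne_top (ENat.natCast_ne_top j) (wordLength_le hjs)
  · ext x
    constructor
    · intro hx
      by_contra hxV
      obtain ⟨j, hj, hjs⟩ := hout x hxV
      have h5 := wordLength_le hjs
      change wordLength (setA m Zs) x = _ at hx
      rw [hx] at h5
      have h6 : k + 2 ≤ j := by exact_mod_cast h5
      omega
    · intro hx
      exact hV x hx

/-! ## Existence of the periodic set `R` -/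

lemma digits_sum (b y : ℕ) : ∀ k : ℕ, y % b ^ k = ∑ i ∈ range k, (y / b ^ i % b) * b ^ i := by
  intro k
  induction k with
  | zero => simp [Nat.mod_one]
  | succ k ih => rw [Finset.sum_range_succ, ← ih, Nat.mod_pow_succ, mul_comm (b ^ k)]

lemma exists_data (k : ℕ) (W : Finset ℕ) (hne : W.Nonempty) (hpos : ∀ w ∈ W, 0 < w) :
    ∃ (m : ℤ) (R : Set ℤ), Data k m R {x : ℤ | ∃ w ∈ W, x = (w : ℤ) ∨ x = -(w : ℤ)} := by
  classical
  set M := W.sup id with hM
  set c := W.card * (2 * (k + 1)) ^ k + M + 1 with hc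
  set b := 2 * c with hb
  have hb0 : 0 < b := by omega
  have hn0 : c * b ^ k ≠ 0 := by positivity
  obtain ⟨p, hp, hp1, hp2⟩ := Nat.exists_prime_lt_and_le_two_mul (c * b ^ k) hn0
  have : Fact p.Prime := ⟨hp⟩
  have hpb : p ≤ b ^ (k + 1) := by
    refine le_trans hp2 (le_of_eq ?_)
    rw [pow_succ, hb]; ring
  have hbk : 1 ≤ b ^ k := Nat.one_le_pow _ _ hb0
  have hpM : M < p := by
    have : M ≤ c * b ^ k := le_trans (by omega : M ≤ c) (Nat.le_mul_of_pos_right _ hbk)
    omega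
  have hpW : W.card * (2 * (k + 1) * b) ^ k < p := by
    have : W.card * (2 * (k + 1) * b) ^ k ≤ c * b ^ k := by
      rw [mul_pow, ← mul_assoc]
      exact Nat.mul_le_mul_right _ (by omega)
    omega
  -- digit residues
  let φ : Bool × Fin (k + 1) × Fin b → ZMod p := fun u =>
    (if u.1 then 1 else -1) * (((u.2.2 : ℕ) : ZMod p) * (b : ZMod p) ^ (u.2.1 : ℕ))
  set Q : Finset (ZMod p) := Finset.univ.image φ with hQ
  have hQcard : Q.card ≤ 2 * (k + 1) * b := by
    refine le_trans Finset.card_image_le ?_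
    simp [Fintype.card_prod, mul_assoc]
  have hQmem : ∀ (i : Fin (k + 1)) (x : ℕ), x < b → (x : ZMod p) * (b : ZMod p) ^ (i : ℕ) ∈ Q := by
    intro i x hx
    rw [hQ, Finset.mem_image]
    exact ⟨(true, i, ⟨x, hx⟩), Finset.mem_univ _, by simp [φ]⟩
  have hQ0 : (0 : ZMod p) ∈ Q := by
    have := hQmem 0 0 hb0
    simpa using this
  have hQneg : ∀ z ∈ Q, -z ∈ Q := by
    intro z hz
    rw [hQ, Finset.mem_image] at hz ⊢
    obtain ⟨u, _, rfl⟩ := hz
    refine ⟨(!u.1, u.2), Finset.mem_univ _, ?_⟩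
    rcases u with ⟨u1, u2⟩
    cases u1 <;> simp [φ]
  set Bad : Finset (ZMod p) :=
    (Fintype.piFinset (fun _ : Fin k => Q)).image (fun f => ∑ i, f i) with hBad
  have hBadcard : Bad.card ≤ (2 * (k + 1) * b) ^ k := by
    refine le_trans Finset.card_image_le ?_
    rw [Fintype.card_piFinset]
    simp only [Finset.prod_const, Finset.card_univ, Fintype.card_fin]
    exact Nat.pow_le_pow_left hQcard k
  have hBadneg : ∀ z ∈ Bad, -z ∈ Bad := by
    intro z hz
    rw [hBad, Finset.mem_image] at hz ⊢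
    obtain ⟨f, hf, rfl⟩ := hz
    refine ⟨fun i => - f i, ?_, by simp⟩
    rw [Fintype.mem_piFinset] at hf ⊢
    exact fun i => hQneg _ (hf i)
  have hwne : ∀ w ∈ W, (w : ZMod p) ≠ 0 := by
    intro w hw h0
    rw [ZMod.natCast_eq_zero_iff] at h0
    have h1 := Nat.le_of_dvd (hpos w hw) h0
    have h2 : w ≤ M := Finset.le_sup (f := id) hw
    omega
  set T : Finset (ZMod p) :=
    W.biUnion (fun w => Finset.univ.filter (fun μ : ZMod p => μ * (w : ZMod p) ∈ Bad)) with hT
  have hTcard : T.card < Fintype.card (ZMod p) := by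
    rw [ZMod.card]
    refine lt_of_le_of_lt ?_ hpW
    refine le_trans Finset.card_biUnion_le ?_
    calc ∑ w ∈ W, (Finset.univ.filter (fun μ : ZMod p => μ * (w : ZMod p) ∈ Bad)).card
        ≤ ∑ _w ∈ W, (2 * (k + 1) * b) ^ k := by
          refine Finset.sum_le_sum fun w hw => le_trans ?_ hBadcard
          refine Finset.card_le_card_of_injOn (fun μ => μ * (w : ZMod p)) ?_ ?_
          · intro μ hμ
            simp only [Finset.coe_filter, Finset.mem_univ, true_and, Set.mem_ofPred_eq] at hμ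
            exact hμ
          · intro μ _ μ' _ h
            exact mul_right_cancel₀ (hwne w hw) h
      _ = W.card * (2 * (k + 1) * b) ^ k := by rw [Finset.sum_const, smul_eq_mul]
  obtain ⟨μ, hμ⟩ : ∃ μ : ZMod p, μ ∉ T := by
    by_contra hcon
    push Not at hcon
    have : T = Finset.univ := Finset.eq_univ_iff_forall.2 hcon
    rw [this, Finset.card_univ] at hTcard
    exact lt_irrefl _ hTcard
  have hμw : ∀ w ∈ W, μ * (w : ZMod p) ∉ Bad := by
    intro w hw h
    apply hμ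
    rw [hT, Finset.mem_biUnion]
    exact ⟨w, hw, Finset.mem_filter.2 ⟨Finset.mem_univ _, h⟩⟩
  have hμ0 : μ ≠ 0 := by
    rintro rfl
    obtain ⟨w, hw⟩ := hne
    apply hμw w hw
    rw [zero_mul, hBad, Finset.mem_image]
    exact ⟨fun _ => 0, Fintype.mem_piFinset.2 fun _ => hQ0, by simp⟩
  refine ⟨(p : ℤ), {z : ℤ | (z : ZMod p) * μ ∈ Q}, ?_, ?_, ?_, ?_, ?_, ?_, ?_, ?_⟩
  · exact_mod_cast hp.pos
  · change ((0 : ℤ) : ZMod p) * μ ∈ Q
    simpa using hQ0
  · intro z hz
    change ((-z : ℤ) : ZMod p) * μ ∈ Q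
    have : ((-z : ℤ) : ZMod p) * μ = -((z : ZMod p) * μ) := by push_cast; ring
    rw [this]
    exact hQneg _ hz
  · intro z z' hz hzz'
    change ((z' : ℤ) : ZMod p) * μ ∈ Q
    have : (z' : ZMod p) = (z : ZMod p) := by
      have h1 : ((z' - z : ℤ) : ZMod p) = 0 := (ZMod.intCast_zmod_eq_zero_iff_dvd _ p).2 hzz'
      push_cast at h1
      exact sub_eq_zero.1 h1
    rw [this]
    exact hz
  · intro n
    set y := ((n : ZMod p) * μ).val with hy
    have hyp : y < b ^ (k + 1) := lt_of_lt_of_le (ZMod.val_lt _) hpb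
    let x : Fin (k + 1) → ZMod p := fun i =>
      ((y / b ^ (i : ℕ) % b : ℕ) : ZMod p) * (b : ZMod p) ^ (i : ℕ) * μ⁻¹
    have hxval : ∀ i, (((x i).val : ℤ) : ZMod p) = x i := by
      intro i
      rw [Int.cast_natCast, ZMod.natCast_zmod_val]
    refine ⟨fun i => ((x i).val : ℤ), fun i => ?_, ?_⟩
    · change (((x i).val : ℤ) : ZMod p) * μ ∈ Q
      rw [hxval]
      have : x i * μ = ((y / b ^ (i : ℕ) % b : ℕ) : ZMod p) * (b : ZMod p) ^ (i : ℕ) := by
        simp only [x]
        rw [mul_assoc _ μ⁻¹ μ, inv_mul_cancel₀ hμ0, mul_one]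
      rw [this]
      exact hQmem i _ (Nat.mod_lt _ hb0)
    · rw [← ZMod.intCast_zmod_eq_zero_iff_dvd]
      push_cast
      rw [sub_eq_zero]
      have h1 : ∑ i, (((x i).val : ℕ) : ZMod p) = ∑ i, x i :=
        Finset.sum_congr rfl fun i _ => ZMod.natCast_zmod_val _
      rw [h1]
      have h2 : (∑ i, x i) * μ = (n : ZMod p) * μ := by
        rw [Finset.sum_mul]
        have h3 : ∀ i : Fin (k + 1), x i * μ
            = (((y / b ^ (i : ℕ) % b) * b ^ (i : ℕ) : ℕ) : ZMod p) := by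
          intro i
          simp only [x]
          rw [mul_assoc _ μ⁻¹ μ, inv_mul_cancel₀ hμ0, mul_one]
          push_cast
          rfl
        rw [Finset.sum_congr rfl fun i _ => h3 i, ← Nat.cast_sum,
          Fin.sum_univ_eq_sum_range (fun i => (y / b ^ i % b) * b ^ i) (k + 1),
          ← digits_sum, Nat.mod_eq_of_lt hyp, hy, ZMod.natCast_zmod_val]
      exact (mul_right_cancel₀ hμ0 h2).symm
  · rintro v ⟨w, hw, h | h⟩
    · exact ⟨w, hw, Or.inr (by rw [h])⟩
    · exact ⟨w, hw, Or.inl (by rw [h, neg_neg])⟩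
  · have : {x : ℤ | ∃ w ∈ W, x = (w : ℤ) ∨ x = -(w : ℤ)} ⊆
        ((W.image (fun w : ℕ => (w : ℤ)) ∪ W.image (fun w : ℕ => -(w : ℤ)) : Finset ℤ) : Set ℤ) := by
      rintro x ⟨w, hw, h | h⟩
      · simp only [Finset.coe_union, Finset.coe_image]
        exact Or.inl ⟨w, hw, h.symm⟩
      · simp only [Finset.coe_union, Finset.coe_image]
        exact Or.inr ⟨w, hw, h.symm⟩
    exact (Finset.finite_toSet _).subset this
  · rintro v ⟨w, hw, hvw⟩ f hf hdvd
    have hv : (v : ZMod p) * μ = ∑ i, (f i : ZMod p) * μ := by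
      rw [← ZMod.intCast_zmod_eq_zero_iff_dvd] at hdvd
      push_cast at hdvd
      rw [sub_eq_zero] at hdvd
      rw [hdvd, Finset.sum_mul]
    have hvBad : (v : ZMod p) * μ ∈ Bad := by
      rw [hv, hBad, Finset.mem_image]
      exact ⟨fun i => (f i : ZMod p) * μ, Fintype.mem_piFinset.2 fun i => hf i, rfl⟩
    apply hμw w hw
    rcases hvw with h | h
    · rw [h] at hvBad
      push_cast at hvBad
      rw [mul_comm]; exact hvBad
    · rw [h] at hvBad
      push_cast at hvBad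
      have := hBadneg _ hvBad
      rw [neg_mul, neg_neg, mul_comm] at this
      exact this

/-! ## Growth -/

lemma count_finite (A : Set ℕ) (t : ℝ) : {a : ℕ | a ∈ A ∧ (a : ℝ) ≤ t}.Finite := by
  refine (Set.finite_Iic ⌊t⌋₊).subset ?_
  rintro a ⟨_, ha⟩
  exact Nat.le_floor ha

lemma growth {m : ℤ} (hm : 0 < m) (Zs : Set ℤ) :
    ∃ c : ℝ, 0 < c ∧ ∀ᶠ t : ℝ in atTop, c * t ≤ (count (setA m Zs) t : ℝ) := by
  obtain ⟨q, rfl⟩ := Int.eq_ofNat_of_zero_le hm.le
  have hq : 0 < q := by exact_mod_cast hm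
  have hqR : (0 : ℝ) < q := by exact_mod_cast hq
  refine ⟨1 / (2 * q), by positivity, ?_⟩
  filter_upwards [eventually_ge_atTop (2 * q : ℝ)] with t ht
  have ht0 : 0 ≤ t := le_trans (by positivity) ht
  have h1 : ⌊t / q⌋₊ ≤ count (setA (q : ℤ) Zs) t := by
    unfold count
    have hsub : ((Finset.Icc 1 ⌊t / q⌋₊).image (fun j => q * j) : Set ℕ) ⊆
        {a : ℕ | a ∈ setA (q : ℤ) Zs ∧ (a : ℝ) ≤ t} := by
      intro a ha
      simp only [Finset.coe_image, Set.mem_image, Finset.coe_Icc, Set.mem_Icc] at ha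
      obtain ⟨j, ⟨hj1, hj2⟩, rfl⟩ := ha
      refine ⟨⟨by positivity, Or.inr (by exact_mod_cast Dvd.intro _ rfl)⟩, ?_⟩
      have h2 : (j : ℝ) ≤ t / q := (Nat.le_floor_iff (by positivity)).1 hj2
      rw [le_div_iff₀ hqR] at h2
      push_cast
      linarith
    have h3 := Set.ncard_le_ncard hsub (count_finite _ _)
    rw [Set.ncard_coe_finset, Finset.card_image_of_injective] at h3
    · simpa using h3
    · intro x y hxy
      exact Nat.eq_of_mul_eq_mul_left hq hxy
  have h2 : t / q - 1 < ⌊t / q⌋₊ := Nat.sub_one_lt_floor _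
  have h3 : ((⌊t / q⌋₊ : ℕ) : ℝ) ≤ (count (setA (q : ℤ) Zs) t : ℝ) := by exact_mod_cast h1
  have h4 : 1 / (2 * q) * t ≤ t / q - 1 := by
    have : 2 ≤ t / q := by rw [le_div_iff₀ hqR]; exact ht
    have h5 : 1 / (2 * (q : ℝ)) * t = t / q / 2 := by field_simp
    rw [h5]
    linarith
  linarith

lemma count_le {A : Set ℕ} (hA : ∀ a ∈ A, 0 < a) {t : ℝ} (ht : 0 ≤ t) : (count A t : ℝ) ≤ t := by
  have h1 : count A t ≤ ⌊t⌋₊ := by
    unfold count
    have hsub : {a : ℕ | a ∈ A ∧ (a : ℝ) ≤ t} ⊆ ((Finset.Icc 1 ⌊t⌋₊ : Finset ℕ) : Set ℕ) := by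
      rintro a ⟨ha, hat⟩
      simp only [Finset.coe_Icc, Set.mem_Icc]
      exact ⟨hA a ha, Nat.le_floor hat⟩
    have := Set.ncard_le_ncard hsub (Finset.finite_toSet _)
    rw [Set.ncard_coe_finset, Nat.card_Icc] at this
    simpa using this
  exact le_trans (by exact_mod_cast h1) (Nat.floor_le ht)

lemma growth_le_one {A : Set ℕ} (hA : ∀ a ∈ A, 0 < a) {θ : ℝ} (h : GrowsAtLeast A θ) : θ ≤ 1 := by
  obtain ⟨c, hc, hev⟩ := h
  by_contra hcon
  rw [not_le] at hcon
  have hlim : Tendsto (fun t : ℝ => t ^ (θ - 1)) atTop atTop :=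
    tendsto_rpow_atTop (by linarith)
  have h1 := hlim.eventually (eventually_gt_atTop (1 / c))
  obtain ⟨t, ht1, ht2, ht3⟩ := (hev.and (h1.and (eventually_gt_atTop 0))).exists
  have h2 := count_le hA ht3.le
  have h3 : t ^ θ = t ^ (θ - 1) * t := by
    rw [← Real.rpow_add_one ht3.ne']
    congr 1
    ring
  rw [h3] at ht1
  rw [div_lt_iff₀ hc] at ht2
  have : t < c * (t ^ (θ - 1) * t) := by nlinarith
  linarith

/-- For every `r ≥ 2` and every nonempty finite set `W` of positive integers there is a set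
`A ∈ 𝒜(r, W)` with `A(t) ≥ c t` for some `c > 0` and all large `t`; consequently
`θ(r, W) = 1`. -/
theorem result (r : ℕ) (hr : 2 ≤ r) (W : Finset ℕ) (hne : W.Nonempty) (hpos : ∀ w ∈ W, 0 < w) :
    (∃ A ∈ Fam r W, ∃ c : ℝ, 0 < c ∧ ∀ᶠ t : ℝ in atTop, c * t ≤ (count A t : ℝ)) ∧
      theta r W = 1 := by
  obtain ⟨k, rfl⟩ : ∃ k, r = k + 2 := ⟨r - 2, by omega⟩
  obtain ⟨m, R, D⟩ := exists_data k W hne hpos
  obtain ⟨Zs, h1, h2, h3, h4⟩ := chain D
  obtain ⟨h5, h6⟩ := mem_fam D h1 h2 h3 h4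
  have hmem : setA m Zs ∈ Fam (k + 2) W := ⟨fun a ha => ha.1, h5, h6⟩
  obtain ⟨c, hc, hev⟩ := growth D.hm Zs
  refine ⟨⟨setA m Zs, hmem, c, hc, hev⟩, ?_⟩
  have hg1 : GrowsAtLeast (setA m Zs) 1 := ⟨c, hc, by simpa using hev⟩
  apply le_antisymm
  · refine csSup_le ⟨1, one_pos, _, hmem, hg1⟩ ?_
    rintro θ ⟨_, A, hA, hAg⟩
    exact growth_le_one hA.1 hAg
  · refine le_csSup ⟨1, ?_⟩ ⟨one_pos, _, hmem, hg1⟩
    rintro θ ⟨_, A, hA, hAg⟩
    exact growth_le_one hA.1 hAg

end Pool.Agent.Results.MP_7aef23_nt.LinearGrowth
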